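import Pool.Agent.Lib.GBC.S.Sieve
import Pool.Agent.Lib.GBC.C.TotalM
import Pool.Agent.Lib.GBC.M.Red
import Pool.Agent.Lib.GBC.P.FP

/-!
Module N.Many of GBC. A positive proportion of the family is such that all nontrivial classes of
`U (f)` are detected at a fixed finite set of places.
-/

set_option autoImplicit false

open Polynomial

namespace Pool.Agent.GBC

open Pool.Agent.BSDP Pool.Agent.BSDFF Pool.Agent.HYP

variable {k K : Type} [Field k] [Field K] [Algebra k K]

/-- A class which is not detected gives an undetected pair of matrices. -/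
private theorem many_repV {G : Geo k K} {g m C : ℕ} {D : Data G g} {f : G.A[X]}
    (hf : Fam D m f) {V : Finset G.FP} (hV : ∀ w ∈ V, G.d * C < w.1.degree)
    (hred : ∀ (hm : (G.fK f).Monic) (c : AdjoinRoot (G.fK f)), InU G c → ¬ IsSquare c →
      ∃ (r : ℕ → ℕ) (b : Fin (2 * g + 1) → AdjoinRoot (G.fK f))
        (G1 G2 : Matrix (Fin (2 * g + 1)) (Fin (2 * g + 1)) G.A), Typ g (m + C) r ∧
        gram1 hm c b = G1.map (algebraMap G.A K) ∧ gram2 hm c b = G2.map (algebraMap G.A K) ∧
        DegP G g m C r G1 G2)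
    (h : ¬ AllDet G g V f) : ∃ r, Typ g (m + C) r ∧ RepV G g m C V r f := by
  have hinj : Function.Injective (algebraMap G.A K) := IsFractionRing.injective G.A K
  unfold AllDet at h
  push Not at h
  obtain ⟨hm, c, hc, hsq, hdet⟩ := h
  obtain ⟨r, b, G1, G2, hr, h1, h2, hdeg⟩ := hred hm c hc hsq
  refine ⟨r, hr, G1, G2, hdeg, ?_, ?_⟩
  · have hn : (G.fK f).natDegree = 2 * g + 1 := by
      rw [Geo.fK, hf.monic.natDegree_map]
      exact hf.deg
    have hp := pencil hm hn c b
    rw [h1, h2] at hp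
    apply Polynomial.map_injective _ hinj
    have e1 : Polynomial.map (algebraMap G.A K)
        (Matrix.scalar (Fin (2 * g + 1)) (X : G.A[X]) * G1.map Polynomial.C -
          G2.map Polynomial.C).det =
        (Matrix.scalar (Fin (2 * g + 1)) (X : K[X]) *
          (G1.map (algebraMap G.A K)).map Polynomial.C -
          (G2.map (algebraMap G.A K)).map Polynomial.C).det := by
      rw [← Polynomial.coe_mapRingHom, RingHom.map_det]
      congr 1
      ext1 i j
      rw [RingHom.mapMatrix_apply, Matrix.map_apply, Matrix.sub_apply, Matrix.sub_apply,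
        Matrix.scalar_apply, Matrix.scalar_apply, Matrix.diagonal_mul, Matrix.diagonal_mul]
      simp only [Matrix.map_apply, map_sub, map_mul, Polynomial.coe_mapRingHom,
        Polynomial.map_X, Polynomial.map_C]
    rw [e1, hp, Polynomial.map_mul, Polynomial.map_C]
    congr 2
    rw [← RingHom.mapMatrix_apply, ← RingHom.map_det]
  · intro w hw
    have hd0 : G1.det ≠ 0 := by
      intro h0
      obtain ⟨u, hu, hu2⟩ := hdeg.det
      rw [h0, mul_zero] at hu2
      exact hu (pow_eq_zero_iff two_ne_zero |>.mp hu2.symm)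
    have hne : (G1.map (G.res w)).det ≠ 0 := by
      intro h0
      have hmem : G1.det ∈ G.prime w := by
        rw [Geo.prime, RingHom.mem_ker, RingHom.map_det]
        exact h0
      have h3 := G.sum_degree_le hd0 hdeg.detC {w} (by
        intro w' hw'
        rw [Finset.mem_singleton] at hw'
        rw [hw']
        exact hmem)
      rw [Finset.sum_singleton] at h3
      have h4 := hV w hw
      have h5 : (w.1.degree : ℤ) ≤ ((G.d * C : ℕ) : ℤ) := by
        push_cast
        exact h3
      have h6 : w.1.degree ≤ G.d * C := by exact_mod_cast h5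
      omega
    refine ⟨hne, fun hD => ?_⟩
    exact hdet w hw ⟨b, G1, G2, h1, h2, hne, hD⟩

theorem exists_many [Finite k] (h2 : (2 : k) ≠ 0) (G : Geo k K) (g : ℕ) (hg : 1 ≤ g)
    (hp : 2 * g + 1 < ringChar k) : ∃ E₀ : ℕ, ∀ D : Data G g,
      (∀ w : G.FP, w.1.degree ≤ E₀ → D.N ≤ G.prime w) →
      ∃ V : Finset G.FP, (∀ w ∈ V, ¬ D.N ≤ G.prime w) ∧ ∃ c : ℝ, 0 < c ∧ ∃ m₀ : ℕ, ∀ m ≥ m₀,
        c * (Nat.card k : ℝ) ^ (G.d * m * (4 * g ^ 2 + 6 * g)) ≤
          Nat.card {f : G.A[X] // Fam D m f ∧ AllDet G g V f} := by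
  obtain ⟨E₀, hE⟩ := sieve G hg hp
  refine ⟨E₀, fun D hD => ?_⟩
  obtain ⟨c, hc, m₁, hm₁⟩ := hE D hD
  obtain ⟨C, hC⟩ := reduced h2 G g hg
  have hn : ((2 * g + 1 : ℕ) : k) ≠ 0 := by
    intro h0
    have h1 := (CharP.cast_eq_zero_iff k (ringChar k) (2 * g + 1)).mp h0
    have h3 := Nat.le_of_dvd (by omega) h1
    omega
  have hε : 0 < c / 2 := by linarith
  obtain ⟨n₀, hn₀⟩ := total G h2 hg hn C hε
  obtain ⟨V, hVc, hVd⟩ := G.exists_large (max (G.d * C) (G.degI D.N) + 1) n₀
  obtain ⟨m₂, hm₂⟩ := hn₀ V hVc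
  refine ⟨V, ?_, c / 2, hε, max m₁ m₂, ?_⟩
  · intro w hw hle
    have h1 := hVd w hw
    have h3 := G.degI_le D.N_ne hle
    rw [G.degI_prime w] at h3
    have h4 : G.degI D.N ≤ max (G.d * C) (G.degI D.N) := le_max_right _ _
    omega
  · intro m hm
    have hirr : ∀ f : G.A[X], Fam D m f → Irreducible (G.fK f) := fun f hf =>
      irreducible_fK hf.toFam₀
    have h1 := hm₁ m (le_trans (le_max_left _ _) hm)
    have h3 := hm₂ m (le_trans (le_max_right _ _) hm) D hirr
    have hq : (0 : ℝ) < (Nat.card k : ℝ) ^ (G.d * m * (4 * g ^ 2 + 6 * g)) := by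
      have : 0 < Nat.card k := Nat.card_pos
      positivity
    have hfin : Finite {f : G.A[X] // Fam D m f} := by
      by_contra hinf
      rw [not_finite_iff_infinite] at hinf
      rw [Nat.card_eq_zero_of_infinite (α := {f : G.A[X] // Fam D m f}), Nat.cast_zero] at h1
      have h4 := mul_pos hc hq
      linarith
    have hfin1 : {f : G.A[X] | Fam D m f}.Finite := Set.finite_coe_iff.mp hfin
    have hsub : {f : G.A[X] | Fam D m f} ⊆ {f : G.A[X] | Fam D m f ∧ AllDet G g V f} ∪
        {f : G.A[X] | Fam D m f ∧ ∃ r, Typ g (m + C) r ∧ RepV G g m C V r f} := by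
      intro f hf
      by_cases h : AllDet G g V f
      · exact Or.inl ⟨hf, h⟩
      · refine Or.inr ⟨hf, many_repV hf ?_ (fun hm' c' hc' hs' => hC D m f hf hm' c' hc' hs') h⟩
        intro w hw
        have h5 := hVd w hw
        have h6 : G.d * C ≤ max (G.d * C) (G.degI D.N) := le_max_left _ _
        omega
    have hA : {f : G.A[X] | Fam D m f ∧ AllDet G g V f}.Finite :=
      hfin1.subset fun f hf => hf.1
    have hB : {f : G.A[X] | Fam D m f ∧ ∃ r, Typ g (m + C) r ∧ RepV G g m C V r f}.Finite :=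
      hfin1.subset fun f hf => hf.1
    have h5 := Set.ncard_le_ncard hsub (hA.union hB)
    have h6 := Set.ncard_union_le {f : G.A[X] | Fam D m f ∧ AllDet G g V f}
      {f : G.A[X] | Fam D m f ∧ ∃ r, Typ g (m + C) r ∧ RepV G g m C V r f}
    have h7 : (Nat.card {f : G.A[X] // Fam D m f} : ℝ) ≤
        Nat.card {f : G.A[X] // Fam D m f ∧ AllDet G g V f} +
        Nat.card {f : G.A[X] // Fam D m f ∧ ∃ r, Typ g (m + C) r ∧ RepV G g m C V r f} := by
      have h8 := h5.trans h6
      exact_mod_cast h8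
    have h9 : G.d * (m * (4 * g ^ 2 + 6 * g)) = G.d * m * (4 * g ^ 2 + 6 * g) := by ring
    rw [h9] at h3
    linarith

end Pool.Agent.GBC
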